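import Mathlib
import Pool.Agent.Helper66.DC.Goals3
import Pool.Agent.Helper83.DC.HF2
import Pool.Agent.Helper85.DC.CNT

/-!
Packet DC3-CNTZ: the final count.
-/

namespace Pool.Agent.Helper35.DC

open MvPolynomial Finset ComplexConjugate
open Pool.Agent.Helper69.DC Pool.Agent.Helper66.DC
open Pool.Agent.Helper85.DC (hl hf_sum_left hf_sum_right hf_smul_left hf_smul_right hf_add_left
  hf_add_right hl_ne_zero)

theorem h_cntz : Pool.Agent.Helper66.DC.J_CNTZ := by
  classical
  intro m N d A0 Z hm hA0 hAZ hZ0 hZZ hdim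
  obtain ⟨a0⟩ : Nonempty (Fin m) := ⟨⟨0, by omega⟩⟩
  have hA00 : hf A0 A0 = 0 := hZ0 a0 A0 (hAZ a0)
  -- complements
  have hW : ∀ a, ∃ W : Submodule ℂ (Fin (N + 1) → ℂ), W ≤ Z a ∧ Disjoint W (ℂ ∙ A0) ∧
      d ≤ Module.finrank ℂ W := by
    intro a
    let S : Submodule ℂ (Z a) := ℂ ∙ (⟨A0, hAZ a⟩ : Z a)
    obtain ⟨W, hW⟩ := S.exists_isCompl
    refine ⟨W.map (Z a).subtype, ?_, ?_, ?_⟩
    · exact Submodule.map_subtype_le _ _
    · rw [Submodule.disjoint_def]
      intro x hx hx0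
      obtain ⟨w, hw, rfl⟩ := Submodule.mem_map.1 hx
      obtain ⟨c, hc⟩ := Submodule.mem_span_singleton.1 hx0
      have h1 : w ∈ S := by
        rw [Submodule.mem_span_singleton]
        exact ⟨c, Subtype.ext hc⟩
      have h2 := (Submodule.disjoint_def.1 hW.disjoint) w h1 hw
      rw [h2, map_zero]
    · have h1 := Submodule.finrank_add_eq_of_isCompl hW
      have h2 : Module.finrank ℂ S = 1 := finrank_span_singleton fun h => hA0 (congrArg Subtype.val h)
      have h3 := hdim a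
      have h4 : Module.finrank ℂ (W.map (Z a).subtype) = Module.finrank ℂ W :=
        Submodule.finrank_map_subtype_eq _ _
      omega
  choose W hWZ hWd hWf using hW
  -- the linear map
  let Φ : (ℂ × (∀ a, W a)) →ₗ[ℂ] (Fin (N + 1) → ℂ) :=
    (LinearMap.toSpanSingleton ℂ _ A0).coprod
      (LinearMap.lsum ℂ (fun a => W a) ℂ fun a => (W a).subtype)
  have hΦ : ∀ p, Φ p = p.1 • A0 + ∑ a, (p.2 a : Fin (N + 1) → ℂ) := by
    intro p
    simp [Φ, LinearMap.lsum_apply]
  have hΦk : ∀ p, Φ p ∈ LinearMap.ker (hl A0) := by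
    intro p
    rw [LinearMap.mem_ker, hΦ]
    change hf _ A0 = 0
    rw [hf_add_left, hf_smul_left, hA00, mul_zero, zero_add, hf_sum_left]
    exact Finset.sum_eq_zero fun a _ => hZ0 a _ (hWZ a (p.2 a).2)
  have hinj : Function.Injective (LinearMap.codRestrict (LinearMap.ker (hl A0)) Φ hΦk) := by
    rw [← LinearMap.ker_eq_bot, LinearMap.ker_eq_bot']
    intro p hp
    have hp0 : Φ p = 0 := congrArg Subtype.val hp
    rw [hΦ] at hp0
    have hsum : ∑ a, (p.2 a : Fin (N + 1) → ℂ) = (-p.1) • A0 := by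
      rw [neg_smul]
      exact eq_neg_of_add_eq_zero_right hp0
    have hw : ∀ a, (p.2 a : Fin (N + 1) → ℂ) = 0 := by
      intro a
      have hwA : hf (p.2 a : Fin (N + 1) → ℂ) A0 = 0 := hZ0 a _ (hWZ a (p.2 a).2)
      have h4 : hf (p.2 a : Fin (N + 1) → ℂ) (∑ b, (p.2 b : Fin (N + 1) → ℂ)) =
          hf (p.2 a : Fin (N + 1) → ℂ) (p.2 a : Fin (N + 1) → ℂ) := by
        rw [hf_sum_right, Finset.sum_eq_single a]
        · intro b _ hb
          exact hZZ a b (Ne.symm hb) _ (hWZ a (p.2 a).2) _ (hWZ b (p.2 b).2)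
        · intro h
          exact absurd (Finset.mem_univ a) h
      have h5 : hf (p.2 a : Fin (N + 1) → ℂ) (p.2 a : Fin (N + 1) → ℂ) = 0 := by
        rw [← h4, hsum, hf_smul_right, hwA, mul_zero]
      obtain ⟨c, hc⟩ := Pool.Agent.Helper83.DC.g_hf2 N A0 _ hA0 hA00 h5 hwA
      exact (Submodule.disjoint_def.1 (hWd a)) _ (p.2 a).2
        (Submodule.mem_span_singleton.2 ⟨c, hc.symm⟩)
    have hc0 : p.1 = 0 := by
      rw [Finset.sum_eq_zero fun a _ => hw a, add_zero] at hp0
      exact (smul_eq_zero.1 hp0).resolve_right hA0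
    refine Prod.ext hc0 ?_
    funext a
    exact Subtype.ext (hw a)
  have hle := LinearMap.finrank_le_finrank_of_injective hinj
  have hne : hl A0 ≠ 0 := hl_ne_zero A0 hA0
  have hrange : LinearMap.range (hl A0) = ⊤ :=
    LinearMap.range_eq_top.mpr (LinearMap.surjective hne)
  have hdimk := LinearMap.finrank_range_add_finrank_ker (hl A0)
  rw [hrange, finrank_top, Module.finrank_self, Module.finrank_fin_fun] at hdimk
  rw [Module.finrank_prod, Module.finrank_self, Module.finrank_pi_fintype] at hle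
  have h6 : m * d ≤ ∑ a, Module.finrank ℂ (W a) := by
    calc m * d = ∑ _a : Fin m, d := by simp
      _ ≤ _ := Finset.sum_le_sum fun a _ => hWf a
  omega

end Pool.Agent.Helper35.DC
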