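import Mathlib
import Pool.Agent.Helper66.DC.Goals3

/-!
Packet DC3-GS: divisibility of a family by the same power of the bilinear form for every parameter.
-/

namespace Pool.Agent.Helper35.DC

open MvPolynomial Finset ComplexConjugate

section

variable {m : ℕ}

/-- The bilinear form. -/
noncomputable def Lf (m : ℕ) : MvPolynomial (Fin m ⊕ Fin m) ℂ :=
  ∑ i : Fin m, X (Sum.inl i) * X (Sum.inr i)

lemma prime_Lf (hm : 2 ≤ m) : Prime (Lf m) := by
  classical
  let c : Fin m →₀ ℂ := Finsupp.equivFunOnFinite.symm fun _ => 1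
  have he : sumSMulXSMulY c = Lf m := by
    rw [sumSMulXSMulY, Finsupp.linearCombination_apply, Finsupp.sum_fintype _ _ (by simp)]
    unfold Lf
    refine Finset.sum_congr rfl fun j _ => ?_
    simp [c]
  rw [← he]
  apply Irreducible.prime
  apply irreducible_sumSMulXSMulY
  · refine ⟨⟨0, by omega⟩, ?_, ⟨1, by omega⟩, ?_, ?_⟩
    · simp [c]
    · simp [c]
    · simp
  · intro r hr
    have h := hr ⟨0, by omega⟩
    exact isUnit_of_dvd_one h

lemma eval_spec_z (H : MvPolynomial (Fin m ⊕ Fin m) ℂ) (y ζ : Fin m → ℂ) :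
    eval y (aeval (Sum.elim X fun i => C (ζ i)) H : MvPolynomial (Fin m) ℂ) =
      eval (Sum.elim y ζ) H := by
  induction H using MvPolynomial.induction_on with
  | C c => simp
  | add p q hp hq => simp only [map_add, hp, hq]
  | mul_X p i hp =>
    simp only [map_mul, hp, MvPolynomial.aeval_X, eval_X]
    congr 1
    cases i <;> simp

lemma lz_ne_zero (ζ : Fin m → ℂ) (h : ζ ≠ 0) :
    (∑ i : Fin m, C (ζ i) * X i : MvPolynomial (Fin m) ℂ) ≠ 0 := by
  classical
  obtain ⟨i, hi⟩ := Function.ne_iff.1 h
  intro h0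
  apply hi
  have h1 := congrArg (eval (Pi.single i (1 : ℂ))) h0
  simpa [Pi.single_apply] using h1

lemma gs_aux (hm : 2 ≤ m) (k : ℕ) : ∀ H : MvPolynomial (Fin m ⊕ Fin m) ℂ,
    (∀ ζ : Fin m → ℂ, ζ ≠ 0 → (∑ i : Fin m, C (ζ i) * X i) ^ k ∣
      (aeval (Sum.elim X fun i => C (ζ i)) H : MvPolynomial (Fin m) ℂ)) →
    Lf m ^ k ∣ H := by
  have hpr := prime_Lf hm
  let i0 : Fin m := ⟨0, by omega⟩
  induction k with
  | zero => intro H _; simp
  | succ k ih =>
    intro H hH
    have h1 : Lf m ∣ X (Sum.inr i0) * H := by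
      have h2 : X (Sum.inr i0) * H ∈
          vanishingIdeal ℂ (zeroLocus ℂ (Ideal.span {Lf m})) := by
        rw [mem_vanishingIdeal_iff]
        intro x hx
        rw [mem_zeroLocus_iff] at hx
        have h3 := hx (Lf m) (Ideal.mem_span_singleton_self _)
        have h4 : x = Sum.elim (fun i => x (Sum.inl i)) (fun i => x (Sum.inr i)) := by
          funext i
          cases i <;> rfl
        set y : Fin m → ℂ := fun i => x (Sum.inl i)
        set ζ : Fin m → ℂ := fun i => x (Sum.inr i)
        rw [map_mul]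
        by_cases hζ : ζ = 0
        · rw [aeval_X]
          have : x (Sum.inr i0) = 0 := congrFun hζ i0
          rw [this, zero_mul]
        · obtain ⟨g, hg⟩ := hH ζ hζ
          have h5 := congrArg (eval y) hg
          rw [eval_spec_z, ← h4] at h5
          have h6 : eval y (∑ i : Fin m, C (ζ i) * X i) = 0 := by
            rw [map_sum]
            rw [Lf, map_sum] at h3
            rw [← h3]
            refine Finset.sum_congr rfl fun i _ => ?_
            simp [y, ζ, mul_comm]
          rw [map_mul, map_pow, h6, zero_pow (by omega), zero_mul] at h5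
          have h7 : aeval x H = 0 := h5
          rw [h7, mul_zero]
      rw [vanishingIdeal_zeroLocus_eq_radical,
        ((Ideal.span_singleton_prime hpr.ne_zero).2 hpr).isRadical.radical] at h2
      exact Ideal.mem_span_singleton.1 h2
    have h2 : Lf m ∣ H := by
      rcases hpr.dvd_or_dvd h1 with h | h
      · exfalso
        have hX : Irreducible (X (Sum.inr i0) : MvPolynomial (Fin m ⊕ Fin m) ℂ) :=
          X_prime.irreducible
        have h3 := (hX.dvd_iff.1 h).resolve_left hpr.not_isUnit
        have h4 : (X (Sum.inr i0) : MvPolynomial (Fin m ⊕ Fin m) ℂ) ∣ Lf m := h3.dvd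
        obtain ⟨g, hg⟩ := h4
        let i1 : Fin m := ⟨1, by omega⟩
        have h5 := congrArg (eval (fun i => if i = Sum.inr i0 then (0 : ℂ) else
          if i = Sum.inr i1 then 1 else if i = Sum.inl i1 then 1 else 0)) hg
        rw [map_mul, eval_X, if_pos rfl, zero_mul] at h5
        rw [Lf, map_sum, Finset.sum_eq_single i1] at h5
        · simp [i0, i1] at h5
        · intro b _ hb
          simp [hb]
        · intro h; exact absurd (Finset.mem_univ _) h
      · exact h
    obtain ⟨H', rfl⟩ := h2
    have h3 : Lf m ^ k ∣ H' := by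
      apply ih
      intro ζ hζ
      have h4 := hH ζ hζ
      have h5 : (aeval (Sum.elim X fun i => C (ζ i)) (Lf m) : MvPolynomial (Fin m) ℂ) =
          ∑ i : Fin m, C (ζ i) * X i := by
        rw [Lf, map_sum]
        refine Finset.sum_congr rfl fun i _ => ?_
        simp [mul_comm]
      rw [map_mul, h5, pow_succ'] at h4
      exact (mul_dvd_mul_iff_left (lz_ne_zero ζ hζ)).1 h4
    rw [pow_succ']
    exact mul_dvd_mul_left _ h3

end

theorem h_gs : Pool.Agent.Helper66.DC.J_GS := by
  intro m k H hm hH
  exact gs_aux hm k H hH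

end Pool.Agent.Helper35.DC
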